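import Mathlib
import Pool.Agent.E8helper1.CT.MT

/-!
# The Mumford-Tate conjecture is a statement about classes of codimension two on the fourth power

Let `A` be an abelian variety over a finitely generated field `k₁` contained in `ℂ`, and `ℓ` a prime.
The Mumford-Tate conjecture for `A` at `ℓ` says that the Tate classes on all powers `A ^ n`, in all
codimensions `m`, are linear combinations of Hodge classes. If it holds, the Tate conjecture for the
powers of `A` is equivalent to the Hodge conjecture for them.

**Theorem.** Suppose that `A` has no factors of type IV (over the algebraic closure). The
Mumford-Tate conjecture holds for `A` at `ℓ` as soon as all Tate classes of CODIMENSION TWO on `A ^ 4`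
are linear combinations of Hodge classes. In particular the Tate conjecture for the classes of
codimension two on `A ^ 4` implies the Mumford-Tate conjecture for `A`, and so the equivalence of the
Tate conjecture and of the Hodge conjecture for `A ^ n`, for all `n` and all codimensions.

Nothing else is assumed about `A`: the hypotheses of the theorem are the standard facts on the Tate
module `V = ℚ_ℓ ⊗ W`, `W = H_1(A, ℚ)`: it is a semisimple representation of every open subgroup of the
Galois group (Faltings), it contains a lattice stable under the Galois group, it has the Weil pairing.

For abelian varieties with factors of type IV the same equivalence holds, if one grants the theorem of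
Deligne that Hodge classes on abelian varieties are Tate classes and the theorem of Vasiu and of Ullmo
and Yafaev that the connected centres of the two groups are equal (second case of the hypothesis
`hcentre`). So for every abelian variety the Mumford-Tate conjecture is a statement about the finite
dimensional space of the classes of codimension two on `A ^ 4`.

The proof. Let `L` be the Lie algebra of all operators on `V` that annihilate all Tate classes on the
powers, and `x` a rational component of the complex structure on the tangent space `W ⊗ ℝ`; it
annihilates all Hodge classes, hence by hypothesis the Tate classes of codimension two on `A ^ 4`, so the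
Tate tensors of degree four. By Cartan's criterion (the replicas of the operators of `L` belong to `L`)
and semisimplicity the trace form is nondegenerate on `L`. Hence the orthogonal projection to `L` is a
Tate tensor of degree four, and `x` normalizes `L`. So `x = y + m` where `y ∈ L` and `m` commutes with
`L`. The slopes and the logarithms of all elements `g` of the Galois group, suitably normalized, belong
to `L`, so `m` commutes with a power of `g` the exponent of which may depend on `g`; using the stable
lattice we find a subgroup of finite index that commutes with `m`. As `x` annihilates the Tate tensors of
degree four it commutes with the endomorphisms of `A` and respects the Weil pairing, and so does `m`.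
Therefore `m` is a skew element of the centre of `End(A) ⊗ ℚ_ℓ`, and it is zero if there are no factors
of type IV. Finally a rational class annihilated by all rational components of the complex structure is a
Hodge class.
-/

namespace Pool.Agent.Results.MP_640417_ag.CodimensionTwoH1

open TensorProduct Pool.Agent.E8helper1.CT
open Pool.Agent.W516.MTD (IsRationalStructure)
open Pool.Agent.Y126.Notions (PotentiallySemisimple)

/-- The Tate classes on all powers of `A` are linear combinations of Hodge classes if and only if the
Tate classes of codimension two on `A ^ 4` are linear combinations of Hodge classes. -/
theorem result (ℓ : ℕ) [Fact ℓ.Prime]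
    -- the rational homology of `A`, included in the tangent space
    {W T : Type} [AddCommGroup W] [Module ℚ W] [FiniteDimensional ℚ W] [AddCommGroup T]
    [Module ℂ T] (per : W →+ T) (hper : IsRationalStructure per)
    -- the action of the Galois group on the Tate module, the cyclotomic character
    {Γ : Type} [Group Γ] (ρ : Representation ℚ_[ℓ] Γ (ℚ_[ℓ] ⊗[ℚ] W)) (χ : Γ →* ℚ_[ℓ])
    (hlattice : HasLattice ℓ ρ)
    -- the theorem of Faltings
    (hsemisimple : PotentiallySemisimple ρ)
    -- the Weil pairing
    (ω : (ℚ_[ℓ] ⊗[ℚ] W) →ₗ[ℚ_[ℓ]] (ℚ_[ℓ] ⊗[ℚ] W) →ₗ[ℚ_[ℓ]] ℚ_[ℓ])
    (hnondegenerate : ∀ u, (∀ v, ω u v = 0) → u = 0)
    (hequivariant : ∀ s u v, ω (ρ s u) (ρ s v) = χ s * ω u v)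
    -- there are no factors of type IV, or two published theorems are granted
    (hcentre : NoTypeFour ρ ω ∨ (HodgeAreTate per ρ χ ∧ TheoremOnCentres per ρ χ)) :
    (∀ n m, TateAreHodge per ρ χ n m) ↔ TateAreHodge per ρ χ 4 2 :=
  ⟨fun h => h 4 2, fun h n m =>
    main_mt hper hnondegenerate hequivariant hsemisimple hlattice hcentre h n m⟩

end Pool.Agent.Results.MP_640417_ag.CodimensionTwoH1
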