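import Pool.Agent.E8helper24.HP.Tate

/-!
# 51 percent of the Tate classes on one explicit power of `X` decide the Tate conjecture for all powers

Let `X` be any smooth projective variety over a field which is finitely generated over `ℚ` (geometric
cohomology; Tate classes are the classes on which a finite index subgroup of the Galois group acts by
the power of the cyclotomic character, as in the problem), `d` its dimension and `b` the dimension of
its whole `ℓ`-adic cohomology, which is assumed to be semisimple (`Gal.Semisimple`; a theorem of
Faltings for abelian varieties). Let

  `M = 2 b! ((2 d + 1) b!) ^ (b - 1)` (or `M = 2` if `X` has no part of type IV),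
  `m ≥ b³ M² log (2 b M + 1)`,  `C = (16 m b ^ (4 m + 2)) ^ (b² + 2)`.

Then either the Tate conjecture is true for all powers of `X` (and homological and numerical
equivalence agree on them), or **for all `n`** the rank of the group of the cycles on `X ^ (n + 1)`
modulo numerical equivalence is at most

  `1 / 2 + C log (n + 2) / (n + 1)`

times the number of linearly independent Tate classes. The constant `C` depends only on `b` and `d`.

So the Tate conjecture for all powers of `X` follows if on **one** power `X ^ (n + 1)` with
`C log (n + 2) / (n + 1) < 1 / 100` the rank of the cycles modulo numerical equivalence is more than 51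
percent of the number of Tate classes; it is not necessary to know the Tate conjecture for any power.

The hypotheses (`Frobenii`, `Semisimple`, `Hodge`, `Polarizes`) are those of the theorem for one power
(`OnePowerH1`), which is used in the proof: if the Tate conjecture fails for some power, it fails for
`X ^ (2 m)`. Then a count of the composition factors of the space of the Tate classes as a module over
the algebraic correspondences yields a factor which is not algebraic and has at least one half of the
total asymptotic size. The new part is that this is made explicit and uniform: for each single `n`
either the rank of the intersection form on `X ^ n` is exponentially smaller than the number of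
algebraic classes (this happens also if there is a numerically trivial correspondence on `X ^ (2 m)`
which is not nilpotent, with a rate `exp (- 1 / (2 m b ^ (4 m)))`), or the log-convexity of the ranks
determines them up to a factor `1 - O(log n / n)` with an explicit constant.
-/

open CategoryTheory AlgebraicGeometry

universe u

namespace Pool.Agent.Results.MP_640417_ag.FiftyOnePercentH24

open Pool.Agent.H914 Pool.Agent.H914.VarClass
open Pool.Agent.E8helper1.TP (Gal Hodge hdim)
open Pool.Agent.E8helper1.TP5 (Frobenii exponent)
open Pool.Agent.E8helper24.HP (AtMostHalf constant)
open Pool.Agent.Y133.Half (cycRank)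
open Pool.Agent.Y129 (pw)

variable {k : Type u} [Field k] {𝒱 : VarClass k} {ops : CycleOps 𝒱}
  {W : WeilCohomology.{u, 0} ops} {X : 𝒱.Obj}

/-- **51 percent of the Tate classes on one explicit power decide the Tate conjecture for all
powers.** Here `G.TateConj n` is the Tate conjecture for the product of `n + 1` copies of `X`,
`G.tateDim n` the dimension of the space of its Tate classes, and `cycRank ops (pw X n)` the rank of
its cycles modulo numerical equivalence. -/
theorem result [Algebra W.K ℂ] {ℓ : ℕ} [Fact ℓ.Prime] (φ : W.K ≃+* ℚ_[ℓ]) (hX : 0 < hdim W X)
    (G : Gal W X) (hG : Frobenii G φ) (hss : G.Semisimple) (H : Hodge W) (D : X.Cycles)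
    (hD : H.Polarizes X D) (M : ℕ)
    (hM : M = exponent (hdim W X) X.dim ∨ G.NoTypeFour ∧ M = 2) (m : ℕ)
    (hm : (hdim W X : ℝ) ^ 3 * (M : ℝ) ^ 2 * Real.log (2 * hdim W X * M + 1) ≤ m) :
    ((∀ n, G.TateConj n) ∧ ∀ n, HomEqNum W (pw X n)) ∨
      AtMostHalf (fun n => cycRank ops (pw X n)) G.tateDim (constant (hdim W X) m) :=
  Pool.Agent.E8helper24.HP.tate_half φ hX G hG hss H D hD M hM m hm

end Pool.Agent.Results.MP_640417_ag.FiftyOnePercentH24
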