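import Pool.Agent.E8helper1.TP5.Conv
import Pool.Agent.E8helper1.TPS.Conv
import Pool.Agent.E8helper1.TS.AvgP
import Pool.Agent.E8helper56.TY.Asm5
import Pool.Agent.E8helper77.TS.Soc
import Pool.Agent.E8helper1.TB.Fin

/-!
# The Tate conjecture for one power of `X` implies it for all powers of `X`, with an explicit bound
# which depends only on the Betti numbers and the dimension

Let `X` be any smooth projective variety over a field which is finitely generated over `ℚ` (geometric
cohomology; Tate classes are the classes on which a finite index subgroup of the Galois group acts by
the power of the cyclotomic character, as in the problem), `d` its dimension and `b` the dimension of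
its whole `ℓ`-adic cohomology. Let

  `M = 2 b! ((2 d + 1) b!) ^ (b - 1)`;

if `X` has no part of type IV (`Gal.NoTypeFour`: a skew element of the centre of the algebra of the
Tate classes on `X × X` is zero), `M = 2` is sufficient. Assume that for **one** power `X ^ (2 m)` with
`m ≥ M`

* either the strong form of the Tate conjecture is true (`StrongTate`: for all `j` the subquotients of
  the cohomology of degree `2 j`, on which a finite index subgroup acts by the `j`-th power of the
  cyclotomic character, have dimension at most the rank of the group of the algebraic cycles modulo
  numerical equivalence; by Tate this rank should be the order of the pole of the `L`-function),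
* or the Tate conjecture is true, and the `ℓ`-adic cohomology of `X` is semisimple (`Gal.Semisimple`;
  this is a theorem of Faltings for abelian varieties).

Then the `ℓ`-adic cohomology of `X` is semisimple, and the number of linearly independent Tate classes on `X ^ n`, divided by the number of linearly independent algebraic classes,
is at most `(2 b M) ^ (2 b²)` for all even `n` and tends to a natural number `N` with the same bound,
which is `1` if and only if the Tate conjecture is true for all powers of `X`; and `N = 1` if
`m ≥ b³ M² log (2 b M + 1)`. Hence the Tate conjecture is true for all powers of `X` if it is true for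
one power `X ^ (2 m)` with `m ≥ b³ M² log (2 b M + 1)`.

The bounds depend only on `b` and `d`, not on `X`, the field and `ℓ`.

Besides the formal properties of the cohomology the hypotheses describe the properties of the
cohomology of a smooth projective variety over such a field: the Hodge decomposition, hard Lefschetz
and the Hodge-Riemann relations for a polarisation (for an embedding of the field in `ℂ`), the
integrality of the Galois representation, and `Frobenii`: the Frobenius elements at places with
residue field `𝔽_p` are dense in the Galois group (Chebotarev) and have integral characteristic
polynomials with roots of absolute value `p ^ (i / 2)` (Deligne).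

The proof: by the strong form for `X × X` every Galois stable simple subspace of the cohomology of `X` is
the image of an algebraic projector, so the cohomology is semisimple. The algebraic classes on the
powers of `X`, with complex coefficients, are stable under
the adjoints for a positive definite hermitian form (Hodge-Riemann relations and the Lefschetz star
operator, which is algebraic by the Tate conjecture for `X × X`), so they are the invariants of a
closed subgroup `G` of the unitary group `U(b)` (Schur-Weyl duality and Stone-Weierstrass). The Lie
algebra `L` of the endomorphisms which kill all Tate classes is an ideal of the complexified Lie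
algebra of `G`, since the two have the same invariants of degree four. The central part: for a
Frobenius element `γ` and a place `P | p` the operator with eigenvalue `v_P (α² / p ^ i)` on the
eigenspace of `α` belongs to `L` and has bounded integral eigenvalues; by a theorem of Kronecker and
the density the determinant characters which are trivial on all these operators are potentially
trivial, so that by Cramer's rule the centre of `L` is determined by the invariants of degree `2 M`.
By an argument with logarithms the elements of `G` near the identity fix all Tate classes; a packing
argument in `U(b)` bounds the index, and the comparison of the integrals of `|tr g| ^ (2 m)` over the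
two groups shows that they are equal if they have the same invariants in one power with
`m ≥ b³ M² log (2 b M + 1)`.
-/

open CategoryTheory AlgebraicGeometry

universe u

namespace Pool.Agent.Results.MP_640417_ag.OnePowerH1

open Pool.Agent.H914 Pool.Agent.H914.VarClass
open Pool.Agent.E8helper1.TP (Gal Hodge hdim algDim Quot)
open Pool.Agent.E8helper1.TP5 (Frobenii exponent bound)
open Pool.Agent.E8helper1.TPS (StrongTate)

variable {k : Type u} [Field k] {𝒱 : VarClass k} {ops : CycleOps 𝒱}
  {W : WeilCohomology.{u, 0} ops} {X : 𝒱.Obj}

/-- **The Tate conjecture for one power implies it for all powers.** Here `G.TateConj n` is the Tate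
conjecture for the product of `n + 1` copies of `X`, and `StrongTate G n` its strong form. -/
theorem result [Algebra W.K ℂ] {ℓ : ℕ} [Fact ℓ.Prime] (φ : W.K ≃+* ℚ_[ℓ]) (hX : 0 < hdim W X)
    (G : Gal W X) (hG : Frobenii G φ) (H : Hodge W) (D : X.Cycles)
    (hD : H.Polarizes X D) (M : ℕ)
    (hM : M = exponent (hdim W X) X.dim ∨ G.NoTypeFour ∧ M = 2) (m : ℕ) (hm : M ≤ m)
    (hT : StrongTate G (2 * m - 1) ∨ G.Semisimple ∧ G.TateConj (2 * m - 1)) :
    G.Semisimple ∧ ∃ N : ℕ, 1 ≤ N ∧ N ≤ bound (hdim W X) M ∧
      Quot G.tateDim (algDim W X) (bound (hdim W X) M) N ∧ (N = 1 ↔ ∀ n, G.TateConj n) ∧
      ((hdim W X : ℝ) ^ 3 * (M : ℝ) ^ 2 * Real.log (2 * hdim W X * M + 1) ≤ m → N = 1) := by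
  have hM1 : 1 ≤ M := by
    rcases hM with h | ⟨-, h⟩
    · have := Pool.Agent.E8helper1.TB.lt_exponent hX X.dim
      have e : M = Pool.Agent.E8helper1.TPQ.exponent (hdim W X) X.dim := h
      omega
    · omega
  obtain ⟨hss, hT'⟩ : G.Semisimple ∧ G.TateConj (2 * m - 1) := by
    rcases hT with h | h
    · exact Pool.Agent.E8helper1.TPS.of_strong Pool.Agent.E8helper77.TS.t_SOC
        Pool.Agent.E8helper1.TS.t_AVG G (by omega) h
    · exact h
  exact ⟨hss, Pool.Agent.E8helper1.TP5.tate_law5 Pool.Agent.E8helper56.TY.t_ASM5 φ hX G hG hss H D
    hD M hM m hm hT'⟩

end Pool.Agent.Results.MP_640417_ag.OnePowerH1
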