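import Mathlib
import Pool.Agent.E8helper1.AP.Final

/-!
# The Tate conjecture for products of an abelian variety and an independent variety

Let `K` be a finitely generated field of characteristic zero, for instance a number field, with
absolute Galois group `Γ`, and let `A` be an abelian variety over `K` such that

* all simple factors of `A` over the algebraic closure are of types I and II: the strongly irreducible
  subspaces `U` of the Tate module `V` (with coefficients in `ℚ_ℓ` extended to the algebraic closure)
  have alternating pairings;
* all Tate classes on all powers of `A` are generated by classes of degree two (so that the Tate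
  conjecture holds for them, by Faltings). This is known for large classes of abelian varieties.

Let `Z` be ANY smooth projective variety over `K` and `M` one of its cohomology groups (`σ` is the action
of the Galois group). Suppose that `A` and `Z` are *independent*: for each `U` there is an element of the
Galois group that acts trivially on `M` and on the roots of unity, and as an operator of infinite order
on `U`.

Then the Tate classes in `H ^ r (A ^ n) ⊗ M (m)` are exactly the linear combinations of the products
`f ⊗ x`, where `f` is a cup product of Tate classes of degree two on `A ^ n` (that is of classes of
divisors) and `x` is a Tate class on `Z`. So the Tate conjecture for `A ^ n × Z` is equivalent to the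
Tate conjecture for `Z` (in the degrees concerned), for all `n`.

Two examples of independence.

* Places. Let `v` be a discrete valuation of `K` with residue characteristic different from `ℓ`, such
  that `Z` has potentially good reduction at `v` and `A` has not, on the factor `U`. By the theorem of
  Grothendieck an element `γ` of the inertia group has the properties `(γ - 1) ^ 2 = 0` and `γ ≠ 1` on
  `U`, and it acts trivially on the cohomology of `Z` and on the roots of unity. For instance `A` is an
  elliptic curve the `j`-invariant of which is not integral at `v` and `Z` is any variety with
  potentially good reduction at `v`.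
* The Galois representation on the cohomology of `Z` is potentially abelian. Then the commutators of the
  elements of a subgroup of finite index act trivially on it.

The proof. Let `H` be the kernel of the action on `M` and on the roots of unity: a normal subgroup of `Γ`.
A Tate class in `H ^ r (A ^ n) ⊗ M (m)` is fixed by a subgroup of finite index of `H` acting on the first
factor alone. Let `L` be the Lie algebra of the operators that kill all tensors fixed by subgroups of
finite index of `H`. It contains the semisimple slopes and the logarithm of the unipotent part of each
element of `H`, so it does not act trivially on any `U`. By Cartan's criterion the trace form is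
nondegenerate on `L`, hence the orthogonal projection to `L` is a Galois invariant tensor; so `L` is
normalized by the Lie algebra of the group `Γ`, which is the product of all symplectic Lie algebras by
hypothesis. It follows that `L` contains the transvections supported on a single `U`; the strongly
irreducible subspaces for `H` are those for `Γ`, and the invariants of `H` are generated by the invariant
pairings, which are Tate classes for the whole group.
-/

namespace Pool.Agent.Results.MP_640417_ag.TimesIndependentH1

open TensorProduct Pool.Agent.Y126.Notions Pool.Agent.E8helper1.AP

/-- The Tate classes on `A ^ n × Z` are the linear combinations of the products of cup products of Tate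
classes of degree two on `A ^ n` and of Tate classes on `Z`. -/
theorem result (ℓ : ℕ) [Fact ℓ.Prime]
    -- the Tate module of the abelian variety, the cyclotomic character, the Weil pairing
    {V Γ : Type} [AddCommGroup V] [Module ℚ_[ℓ] V] [FiniteDimensional ℚ_[ℓ] V] [Group Γ]
    (ρ : Representation ℚ_[ℓ] Γ V) (χ : Γ →* ℚ_[ℓ]) (ω : V →ₗ[ℚ_[ℓ]] V →ₗ[ℚ_[ℓ]] ℚ_[ℓ])
    (halternating : ∀ v, ω v v = 0) (hnondegenerate : ∀ u, (∀ v, ω v u = 0) → u = 0)
    (hequivariant : ∀ s u v, ω (ρ s u) (ρ s v) = χ s * ω u v)
    (hsemisimple : PotentiallySemisimple ρ)
    -- the conditions on the abelian variety
    (hsymplectic : ∀ U, StronglyIrreducible (extend (AlgebraicClosure ℚ_[ℓ]) ρ) U →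
      IsSymplectic (extend (AlgebraicClosure ℚ_[ℓ]) ρ)
        ((algebraMap ℚ_[ℓ] (AlgebraicClosure ℚ_[ℓ]) : ℚ_[ℓ] →* _).comp χ) U)
    (hgenerated : GeneratedInDegreeTwo ρ χ)
    -- the cohomology of the variety `Z`
    {M : Type} [AddCommGroup M] [Module ℚ_[ℓ] M] (σ : Representation ℚ_[ℓ] Γ M)
    (hindependent : IsIndependent ρ χ σ)
    (n r m : ℕ) (hr : r ≤ 2 * m) (F : (Fin n → V) [⋀^Fin r]→ₗ[ℚ_[ℓ]] M) :
    IsTateOnProduct ρ χ σ m F ↔ F ∈ productClasses ρ χ σ n r m :=
  main ρ χ ω halternating hnondegenerate hequivariant hsemisimple hgenerated hsymplectic σ
    hindependent hr F

end Pool.Agent.Results.MP_640417_ag.TimesIndependentH1
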